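import Pool.Agent.SGL.StmtsU

set_option autoImplicit false

namespace Pool.Agent.SGL.H27

open Filter Pool.Agent.SGL

theorem evb : EvbStmt := by
  intro α β γ δ l m n hα hl hm
  filter_upwards [eventually_gt_atTop ((|β| + |γ| + |δ|) / α), eventually_ge_atTop (1 : ℝ)] with B
    hB hB1
  rw [div_lt_iff₀ hα] at hB
  obtain ⟨k, rfl⟩ : ∃ k, n = k + 1 := ⟨n - 1, by omega⟩
  have hk : 0 < B ^ k := by positivity
  have key : ∀ (c : ℝ) (j : ℕ), j ≤ k → -(|c| * B ^ k) ≤ c * B ^ j := by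
    intro c j hj
    have h1 : B ^ j ≤ B ^ k := pow_le_pow_right₀ hB1 hj
    have h2 : |c * B ^ j| ≤ |c| * B ^ k := by
      rw [abs_mul, abs_of_nonneg (by positivity : (0 : ℝ) ≤ B ^ j)]
      exact mul_le_mul_of_nonneg_left h1 (abs_nonneg c)
    exact (neg_le_neg h2).trans (neg_abs_le _)
  have e1 := key β m (by omega)
  have e2 := key γ l (by omega)
  have e3 := key δ 0 (by omega)
  rw [pow_zero, mul_one] at e3
  have e4 : 0 < B ^ k * (B * α - (|β| + |γ| + |δ|)) := mul_pos hk (by linarith)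
  have e5 : α * B ^ (k + 1) = B ^ k * (B * α) := by ring
  rw [e5]
  nlinarith

end Pool.Agent.SGL.H27
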